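import Pool.Agent.J6H7.Chain.Defs

/-!
# Small undirected monotone networks for `k`-clique
-/

set_option autoImplicit false

namespace Pool.Agent.J6H27.PL

open Finset Pool.Agent.J6H7.Chain

section dnf

variable {τ ι : Type} (l : τ → List ι)

/-- the nodes of the paths: `inl false` is the source, `inl true` the target -/
def nd (t : τ) (j : ℕ) : Bool ⊕ (τ × ℕ) :=
  if j = 0 then Sum.inl false else if j = (l t).length then Sum.inl true else Sum.inr (t, j)

/-- the wires of the path of the term `t` -/
def pathWires (t : τ) : List ((Bool ⊕ (τ × ℕ)) × (Bool ⊕ (τ × ℕ)) × ι) :=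
  List.ofFn fun j : Fin (l t).length => (nd l t j, nd l t (j + 1), (l t).get j)

/-- a network of parallel paths, one path for each term of a list of terms -/
def dnfNet (T : List τ) : Net (Bool ⊕ (τ × ℕ)) ι where
  s := Sum.inl false
  t := Sum.inl true
  free := []
  wires := T.flatMap (pathWires l)

theorem mem_wires {T : List τ} {a b : Bool ⊕ (τ × ℕ)} {i : ι} :
    (a, b, i) ∈ (dnfNet l T).wires ↔
      ∃ t ∈ T, ∃ j : Fin (l t).length, a = nd l t j ∧ b = nd l t (j + 1) ∧ i = (l t).get j := by
  simp only [dnfNet, List.mem_flatMap, pathWires, List.mem_ofFn, Prod.mk.injEq]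
  constructor
  · rintro ⟨t, ht, j, h1, h2, h3⟩
    exact ⟨t, ht, j, h1.symm, h2.symm, h3.symm⟩
  · rintro ⟨t, ht, j, h1, h2, h3⟩
    exact ⟨t, ht, j, h1.symm, h2.symm, h3.symm⟩

theorem step_iff {T : List τ} {x : ι → Bool} {a b : Bool ⊕ (τ × ℕ)} :
    (dnfNet l T).Step x a b ↔ ∃ t ∈ T, ∃ j : Fin (l t).length,
      a = nd l t j ∧ b = nd l t (j + 1) ∧ x ((l t).get j) = true := by
  unfold Net.Step
  constructor
  · rintro (h | ⟨i, h1, h2⟩)
    · simp [dnfNet] at h
    · rw [mem_wires] at h1
      obtain ⟨t, ht, j, h3, h4, rfl⟩ := h1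
      exact ⟨t, ht, j, h3, h4, h2⟩
  · rintro ⟨t, ht, j, h1, h2, h3⟩
    exact Or.inr ⟨_, (mem_wires l).2 ⟨t, ht, j, h1, h2, rfl⟩, h3⟩

/-- if a term is true, its path conducts -/
theorem path_conducts {T : List τ} {x : ι → Bool} {t : τ} (ht : t ∈ T) (hne : l t ≠ [])
    (hx : ∀ i ∈ l t, x i = true) : (dnfNet l T).Directed x := by
  have h : ∀ j : ℕ, j ≤ (l t).length →
      Relation.ReflTransGen ((dnfNet l T).Step x) (Sum.inl false) (nd l t j) := by
    intro j
    induction j with
    | zero => intro _; simp only [nd, if_true]; exact Relation.ReflTransGen.refl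
    | succ j ih =>
      intro hj
      refine (ih (by omega)).tail ?_
      rw [step_iff]
      exact ⟨t, ht, ⟨j, by omega⟩, rfl, rfl, hx _ (List.get_mem _ _)⟩
  have h1 := h _ le_rfl
  have h2 : (l t).length ≠ 0 := by
    intro h0
    exact hne (List.length_eq_zero_iff.1 h0)
  have h3 : nd l t (l t).length = Sum.inl true := by
    unfold nd
    rw [if_neg h2, if_pos rfl]
  rw [h3] at h1
  exact h1

/-- if the network conducts then a term is true -/
theorem conducts_path {T : List τ} {x : ι → Bool}
    (h : (dnfNet l T).Undirected x) : ∃ t ∈ T, ∀ i ∈ l t, x i = true := by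
  by_contra hcon
  push Not at hcon
  -- the set of the nodes whose initial part of the path conducts
  let A : Bool ⊕ (τ × ℕ) → Prop := fun a =>
    match a with
    | Sum.inl b => b = false
    | Sum.inr (t, j) => ∀ i : Fin (l t).length, (i : ℕ) < j → x ((l t).get i) = true
  have hA : ∀ t ∈ T, ∀ j : ℕ, j ≤ (l t).length →
      (A (nd l t j) ↔ ∀ i : Fin (l t).length, (i : ℕ) < j → x ((l t).get i) = true) := by
    intro t ht j hj
    unfold nd
    split_ifs with h1 h2
    · subst h1
      simp [A]
    · constructor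
      · intro h
        exact absurd h (by simp [A])
      · intro h
        exfalso
        obtain ⟨i, hi, hxi⟩ := hcon t ht
        obtain ⟨m, hm⟩ := List.mem_iff_get.1 hi
        apply hxi
        rw [← hm]
        exact h m (by rw [h2]; exact m.2)
    · rfl
  have hstep : ∀ a b, (dnfNet l T).Step x a b → (A a ↔ A b) := by
    intro a b hab
    rw [step_iff] at hab
    obtain ⟨t, ht, j, rfl, rfl, hx⟩ := hab
    rw [hA t ht j j.2.le, hA t ht (j + 1) j.2]
    constructor
    · intro h i hi
      rcases Nat.lt_succ_iff_lt_or_eq.1 hi with h1 | h1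
      · exact h i h1
      · have : i = j := Fin.ext h1
        rw [this]
        exact hx
    · intro h i hi
      exact h i (by omega)
  have hall : ∀ b, Relation.ReflTransGen
      (fun a b => (dnfNet l T).Step x a b ∨ (dnfNet l T).Step x b a) (Sum.inl false) b → A b := by
    intro b hb
    induction hb with
    | refl => rfl
    | tail _ h1 ih =>
      rcases h1 with h1 | h1
      · exact (hstep _ _ h1).1 ih
      · exact (hstep _ _ h1).2 ih
  have := hall _ h
  simp [A, dnfNet] at this

theorem directed_undirected {V : Type} (N : Net V ι) (x : ι → Bool) (h : N.Directed x) :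
    N.Undirected x :=
  Relation.ReflTransGen.mono (fun _ _ h => Or.inl h) _ _ h

theorem dnf_iff {T : List τ} (x : ι → Bool) (hne : ∀ t ∈ T, l t ≠ []) :
    ((dnfNet l T).Directed x ↔ ∃ t ∈ T, ∀ i ∈ l t, x i = true) ∧
    ((dnfNet l T).Undirected x ↔ ∃ t ∈ T, ∀ i ∈ l t, x i = true) := by
  refine ⟨⟨fun h => conducts_path l (directed_undirected _ x h), ?_⟩,
    ⟨fun h => conducts_path l h, ?_⟩⟩
  · rintro ⟨t, ht, h⟩
    exact path_conducts l ht (hne t ht) h
  · rintro ⟨t, ht, h⟩
    exact directed_undirected _ x (path_conducts l ht (hne t ht) h)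

theorem dnf_size (T : List τ) (m : ℕ) (hm : ∀ t ∈ T, (l t).length ≤ m) :
    (dnfNet l T).size ≤ T.length * m := by
  unfold Net.size dnfNet
  simp only
  induction T with
  | nil => simp
  | cons t T ih =>
    rw [List.flatMap_cons, List.length_append, List.length_cons]
    have h1 : (pathWires l t).length = (l t).length := by
      unfold pathWires
      rw [List.length_ofFn]
    have h2 := hm t List.mem_cons_self
    have h3 := ih (fun t ht => hm t (List.mem_cons_of_mem _ ht))
    rw [h1]
    calc (l t).length + (List.flatMap (pathWires l) T).length ≤ m + T.length * m := by omega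
      _ = (T.length + 1) * m := by ring

end dnf

/-- **Small networks for `k`-clique.** -/
theorem clique_net (n k : ℕ) (hk : 2 ≤ k) : ∃ (V : Type) (M : Net V (Sym2 (Fin n))),
    M.free = [] ∧ M.size ≤ n ^ (k + 2) ∧
    (∀ x, M.Undirected x ↔ ¬ (SimpleGraph.fromEdgeSet {e | x e = true}).CliqueFree k) ∧
    (∀ x, M.Directed x ↔ ¬ (SimpleGraph.fromEdgeSet {e | x e = true}).CliqueFree k) := by
  classical
  set T : List (Finset (Fin n)) := (powersetCard k (univ : Finset (Fin n))).toList with hT
  set l : Finset (Fin n) → List (Sym2 (Fin n)) := fun S => S.offDiag.toList.map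
    (fun p => s(p.1, p.2)) with hl
  have hTm : ∀ S, S ∈ T ↔ S.card = k := by
    intro S
    rw [hT, Finset.mem_toList, mem_powersetCard]
    simp
  have hlen : ∀ S ∈ T, (l S).length = k * k - k := by
    intro S hS
    rw [hTm] at hS
    simp only [hl, List.length_map, Finset.length_toList, Finset.offDiag_card, hS]
  have hne : ∀ S ∈ T, l S ≠ [] := by
    intro S hS h0
    have h1 := hlen S hS
    rw [h0, List.length_nil] at h1
    have : k * 2 ≤ k * k := Nat.mul_le_mul_left k hk
    omega
  have hiff : ∀ x : Sym2 (Fin n) → Bool, (∃ S ∈ T, ∀ i ∈ l S, x i = true) ↔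
      ¬ (SimpleGraph.fromEdgeSet {e | x e = true}).CliqueFree k := by
    intro x
    unfold SimpleGraph.CliqueFree
    push Not
    constructor
    · rintro ⟨S, hS, h⟩
      refine ⟨S, ?_⟩
      rw [SimpleGraph.isNClique_iff]
      refine ⟨?_, (hTm S).1 hS⟩
      intro a ha b hb hab
      rw [SimpleGraph.fromEdgeSet_adj]
      refine ⟨?_, hab⟩
      apply h
      simp only [hl, List.mem_map, Finset.mem_toList, Finset.mem_offDiag, Prod.exists]
      exact ⟨a, b, ⟨ha, hb, hab⟩, rfl⟩
    · rintro ⟨S, hS⟩
      rw [SimpleGraph.isNClique_iff] at hS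
      refine ⟨S, (hTm S).2 hS.2, ?_⟩
      intro i hi
      simp only [hl, List.mem_map, Finset.mem_toList, Finset.mem_offDiag, Prod.exists] at hi
      obtain ⟨a, b, ⟨ha, hb, hab⟩, rfl⟩ := hi
      have := hS.1 ha hb hab
      rw [SimpleGraph.fromEdgeSet_adj] at this
      exact this.1
  refine ⟨_, dnfNet l T, rfl, ?_, fun x => ?_, fun x => ?_⟩
  · refine (dnf_size l T (k * k - k) (fun S hS => (hlen S hS).le)).trans ?_
    rw [hT, Finset.length_toList, card_powersetCard, card_univ, Fintype.card_fin]
    by_cases hkn : k ≤ n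
    · calc n.choose k * (k * k - k) ≤ n ^ k * (n * n) := by
            refine Nat.mul_le_mul (Nat.choose_le_pow n k) ?_
            exact (Nat.sub_le _ _).trans (Nat.mul_le_mul hkn hkn)
        _ = n ^ (k + 2) := by rw [pow_add]; ring
    · rw [Nat.choose_eq_zero_of_lt (by omega)]
      simp
  · rw [(dnf_iff l x hne).2]
    exact hiff x
  · rw [(dnf_iff l x hne).1]
    exact hiff x

end Pool.Agent.J6H27.PL
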