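import Pool.Agent.J6H7.Clq.Num
import Pool.Agent.J6H7.Chain.Master

/-!
# Few non-monotone gates: the complexity of `k`-clique for all `k` in a wide range
-/

set_option autoImplicit false

namespace Pool.Agent.J6H27.PL

open Filter Finset Pool.Agent.H559R4 Pool.Agent.H559R7 Pool.Agent.H520R2.NM

/-- Fewer parts in each block. -/
def shrink {n k k' q P : ℕ} (D : Design n k q P) (h : k' ≤ k) : Design n k' q P where
  pt p a := D.pt p (Fin.castLE h a.1, a.2)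
  inj p := by
    intro a b hab
    have h1 := D.inj p hab
    rw [Prod.mk.injEq] at h1
    exact Prod.ext (Fin.castLE_injective h h1.1) h1.2
  tri := by
    intro p₁ p₂ p₃ a₁ b₁ a₂ b₂ a₃ b₃ h1 h2 h3 h4 h5 h6
    have key : ∀ a b : Fin k' × Fin q, a ≠ b →
        ((Fin.castLE h a.1, a.2) : Fin k × Fin q) ≠ (Fin.castLE h b.1, b.2) := by
      intro a b hab hcon
      rw [Prod.mk.injEq] at hcon
      exact hab (Prod.ext (Fin.castLE_injective h hcon.1) hcon.2)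
    exact D.tri p₁ p₂ p₃ _ _ _ _ _ _ h1 h2 h3 (key _ _ h4) (key _ _ h5) (key _ _ h6)

/-- **The lower bound for `k`-clique** for all `k` between a constant and `n ^ α`. -/
theorem clique_lower (ε : ℝ) (hε : 0 < ε) : ∃ α : ℝ, 0 < α ∧ ∀ᶠ n : ℕ in atTop,
    ∀ k : ℕ, 1 / α ≤ k → (k : ℝ) ≤ (n : ℝ) ^ α →
    ∀ (N : ℕ) (C : Circuit (Sym2 (Fin n)) N) (out : Wire (Sym2 (Fin n)) N),
      (((C.fanins.map (· + 1)).prod : ℕ) : ℝ) ≤ (n : ℝ) ^ (2 - ε) →
      (∀ x, out.eval x (C.vals x) = true ↔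
        ¬ (SimpleGraph.fromEdgeSet {e | x e = true}).CliqueFree k) →
      (n : ℝ) ^ (α * k) ≤ C.size := by
  obtain ⟨β, hβ, hev⟩ := Pool.Agent.J6H7.Clq.exists_big_design (ε := min ε 1)
    (lt_min hε one_pos) (lt_of_le_of_lt (min_le_right _ _) (by norm_num))
  -- we take `α = min (β / 2) (1 / 3)`
  set α : ℝ := min (β / 2) (1 / 3) with hα
  have hα0 : 0 < α := lt_min (by positivity) (by norm_num)
  have hαβ : 2 * α ≤ β := by
    have := min_le_left (β / 2) ((1 : ℝ) / 3)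
    linarith
  have hα3 : 3 ≤ 1 / α := by
    rw [le_div_iff₀ hα0]
    have := min_le_right (β / 2) ((1 : ℝ) / 3)
    linarith
  refine ⟨α, hα0, ?_⟩
  have hlog : ∀ᶠ n : ℕ in atTop, 832 * (β * Real.logb 2 n) ≤ (n : ℝ) ^ α := by
    have h := (isLittleO_log_rpow_atTop hα0).bound
      (show 0 < Real.log 2 / (832 * β) from by
        have := Real.log_pos (show (1 : ℝ) < 2 by norm_num); positivity)
    have h' := tendsto_natCast_atTop_atTop (R := ℝ) |>.eventually h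
    filter_upwards [h', eventually_ge_atTop 1] with n hn h1
    have h2 : (1 : ℝ) ≤ n := by exact_mod_cast h1
    rw [Real.norm_of_nonneg (Real.log_nonneg h2),
      Real.norm_of_nonneg (Real.rpow_nonneg (by linarith) _)] at hn
    have h3 := Real.log_pos (show (1 : ℝ) < 2 by norm_num)
    unfold Real.logb
    calc 832 * (β * (Real.log n / Real.log 2)) = (832 * β / Real.log 2) * Real.log n := by ring
      _ ≤ (832 * β / Real.log 2) * (Real.log 2 / (832 * β) * (n : ℝ) ^ α) :=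
          mul_le_mul_of_nonneg_left hn (by positivity)
      _ = (n : ℝ) ^ α := by field_simp
  filter_upwards [hev, hlog, Pool.Agent.J6H7.Clq.ev_ge hα0 (2 ^ (13 : ℝ)),
    Pool.Agent.J6H7.Clq.ev_ge hβ (2 ^ (11 : ℝ)), eventually_ge_atTop 2]
    with n hD hlogn hn13 h11 hn k hk1 hk2 N C out hprod hC
  obtain ⟨P, hP, ⟨D⟩⟩ := hD
  have hn1 : (1 : ℝ) ≤ n := by
    have : (2 : ℝ) ≤ n := by exact_mod_cast hn
    linarith
  have hn2 : (2 : ℝ) ≤ n := by exact_mod_cast hn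
  have hn0 : (0 : ℝ) < n := by linarith
  set a := ⌊β * Real.logb 2 n⌋₊ with ha
  have ha1 : β * Real.logb 2 n - 1 ≤ (a : ℝ) := by
    have := Nat.lt_floor_add_one (β * Real.logb 2 n)
    rw [← ha] at this
    linarith
  have ha2 : (a : ℝ) ≤ β * Real.logb 2 n :=
    Nat.floor_le (mul_nonneg hβ.le (Real.logb_nonneg (by norm_num) hn1))
  -- the size of the blocks
  have h2a : (n : ℝ) ^ β / 2 ≤ (2 : ℝ) ^ a := by
    calc (n : ℝ) ^ β / 2 = (2 : ℝ) ^ (β * Real.logb 2 n - 1) := by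
          rw [Real.rpow_sub (by norm_num), Real.rpow_one, mul_comm, Real.rpow_mul (by norm_num),
            Real.rpow_logb (by norm_num) (by norm_num) hn0]
      _ ≤ (2 : ℝ) ^ ((a : ℕ) : ℝ) := Real.rpow_le_rpow_of_exponent_le (by norm_num) ha1
      _ = (2 : ℝ) ^ a := Real.rpow_natCast _ _
  have ha1' : 1 ≤ a := by
    by_contra hcon
    have h1 : a = 0 := by omega
    rw [h1, pow_zero] at h2a
    have h2 : (2 : ℝ) ^ (11 : ℝ) = 2048 := by
      rw [show (11 : ℝ) = ((11 : ℕ) : ℝ) by norm_num, Real.rpow_natCast]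
      norm_num
    rw [h2] at h11
    linarith
  have hk3 : 3 ≤ k := by
    have : (3 : ℝ) ≤ k := hα3.trans hk1
    exact_mod_cast this
  obtain ⟨κ, hκ⟩ : ∃ κ, κ + 1 = k := ⟨k - 1, by omega⟩
  have hκ2 : 2 ≤ κ := by omega
  have hk2a : k ≤ 2 ^ a := by
    have h1 : (k : ℝ) ≤ (2 : ℝ) ^ a := by
      refine hk2.trans (le_trans ?_ h2a)
      have h2 : (n : ℝ) ^ β = (n : ℝ) ^ (β - α) * (n : ℝ) ^ α := by
        rw [← Real.rpow_add hn0]; congr 1; ring
      have h3 : (2 : ℝ) ≤ (n : ℝ) ^ (β - α) := by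
        have h4 : (n : ℝ) ^ α ≤ (n : ℝ) ^ (β - α) :=
          Real.rpow_le_rpow_of_exponent_le hn1 (by linarith)
        have h5 : (2 : ℝ) ≤ (2 : ℝ) ^ (13 : ℝ) := by
          rw [show (13 : ℝ) = ((13 : ℕ) : ℝ) by norm_num, Real.rpow_natCast]
          norm_num
        linarith
      have h6 : 0 < (n : ℝ) ^ α := Real.rpow_pos_of_pos hn0 _
      rw [h2]
      nlinarith
    exact_mod_cast h1
  -- the number of blocks
  have hPC : (C.fanins.map (· + 1)).prod ≤ P := by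
    have h1 : (n : ℝ) ^ (2 - ε) ≤ (n : ℝ) ^ (2 - min ε 1) :=
      Real.rpow_le_rpow_of_exponent_le hn1 (by linarith [min_le_left ε 1])
    exact_mod_cast hprod.trans (h1.trans hP)
  have D' := shrink D hk2a
  rw [← hκ] at D'
  have hmain := design_lower (κ := κ) (b := 13 * a) hκ2 (by omega) D' C out
    (fun x => by rw [hC x, ← hκ]) hPC
  -- the sum of the fan-ins is small
  have hsum : ((C.fanins.sum : ℕ) : ℝ) ≤ (n : ℝ) ^ (2 : ℝ) := by
    have h2 := Pool.Agent.J6H7.Chain.sum_succ_le_prod C.fanins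
    have h3 : ((C.fanins.sum : ℕ) : ℝ) ≤ (((C.fanins.map (· + 1)).prod : ℕ) : ℝ) := by
      exact_mod_cast (by omega : C.fanins.sum ≤ (C.fanins.map (· + 1)).prod)
    exact h3.trans (hprod.trans (Real.rpow_le_rpow_of_exponent_le hn1 (by linarith)))
  -- the approximation error
  set y : ℝ := (n : ℝ) ^ α with hy
  have hy0 : 0 < y := Real.rpow_pos_of_pos hn0 _
  have hy1 : 1 ≤ y := Real.one_le_rpow hn1 hα0.le
  have hap : ((apx2 κ (13 * a) : ℕ) : ℝ) ≤ (y ^ 4) ^ k := by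
    unfold apx2
    rw [hκ]
    have h1 : ((64 * (k * (13 * a) * κ * κ) : ℕ) : ℝ) ≤ y ^ 4 := by
      push_cast
      have hκk : (κ : ℝ) ≤ y := le_trans (by exact_mod_cast (by omega : κ ≤ k)) hk2
      have h5 : 832 * (a : ℝ) ≤ y := by
        refine le_trans ?_ hlogn
        linarith
      calc (64 : ℝ) * (k * (13 * a) * κ * κ) = (832 * a) * k * κ * κ := by ring
        _ ≤ y * y * y * y := by gcongr
        _ = y ^ 4 := by ring
    have h2 : ((k * (64 * (k * (13 * a) * κ * κ)) ^ κ : ℕ) : ℝ) ≤ y ^ 4 * (y ^ 4) ^ κ := by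
      rw [Nat.cast_mul, Nat.cast_pow]
      gcongr
      calc (k : ℝ) ≤ y := hk2
        _ = y ^ 1 := (pow_one y).symm
        _ ≤ y ^ 4 := pow_le_pow_right₀ hy1 (by norm_num)
    refine h2.trans (le_of_eq ?_)
    rw [← hκ, pow_succ]
    ring
  have happos : 0 < apx2 κ (13 * a) := apx2_pos (by omega) (by omega)
  have hq : y ^ 12 ≤ ((2 : ℝ) ^ (13 * a)) := by
    have h1 : (n : ℝ) ^ β / 2 ≤ (2 : ℝ) ^ a := h2a
    have h2 : (n : ℝ) ^ β = (n : ℝ) ^ (β - α) * y := by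
      rw [hy, ← Real.rpow_add hn0]; congr 1; ring
    have h3 : y ≤ (n : ℝ) ^ (β - α) :=
      Real.rpow_le_rpow_of_exponent_le hn1 (by linarith)
    have h13 : (2 : ℝ) ^ (13 : ℕ) ≤ y := by
      have : (2 : ℝ) ^ (13 : ℝ) = (2 : ℝ) ^ (13 : ℕ) := by
        rw [show (13 : ℝ) = ((13 : ℕ) : ℝ) by norm_num, Real.rpow_natCast]
      rw [← this]
      exact hn13
    have h4 : y / 2 ≤ (2 : ℝ) ^ a := by
      refine le_trans ?_ h1
      rw [h2]
      nlinarith
    calc y ^ 12 ≤ (y / 2) ^ 13 := by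
          rw [div_pow, le_div_iff₀ (by positivity), pow_succ y 12]
          exact mul_le_mul_of_nonneg_left h13 (by positivity)
      _ ≤ ((2 : ℝ) ^ a) ^ 13 := pow_le_pow_left₀ (by positivity) h4 13
      _ = (2 : ℝ) ^ (13 * a) := by rw [← pow_mul]; congr 1; ring
  -- the quotient
  have hquot : (y ^ 4) ^ k - 1 ≤ ((2 ^ ((κ + 1) * (13 * a)) / apx2 κ (13 * a) ^ 2 : ℕ) : ℝ) := by
    set X := 2 ^ ((κ + 1) * (13 * a)) with hX
    set A := apx2 κ (13 * a) ^ 2 with hA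
    have hApos : 0 < A := pow_pos happos 2
    have hA1 : (A : ℝ) ≤ (y ^ 8) ^ k := by
      rw [hA, Nat.cast_pow]
      calc ((apx2 κ (13 * a) : ℕ) : ℝ) ^ 2 ≤ ((y ^ 4) ^ k) ^ 2 :=
            pow_le_pow_left₀ (by positivity) hap 2
        _ = (y ^ 8) ^ k := by
            rw [← pow_mul, ← pow_mul, ← pow_mul]; congr 1; ring
    have hX1 : (y ^ 12) ^ k ≤ (X : ℝ) := by
      rw [hX, hκ, Nat.cast_pow, Nat.cast_ofNat]
      calc (y ^ 12) ^ k ≤ ((2 : ℝ) ^ (13 * a)) ^ k := pow_le_pow_left₀ (by positivity) hq k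
        _ = (2 : ℝ) ^ (k * (13 * a)) := by rw [← pow_mul]; congr 1; ring
    have h1 : X < A * (X / A + 1) := Nat.lt_mul_div_succ X hApos
    have h2 : (X : ℝ) < A * ((X / A : ℕ) + 1) := by exact_mod_cast h1
    have hAr : (0 : ℝ) < A := by exact_mod_cast hApos
    have h3 : (y ^ 4) ^ k * (A : ℝ) ≤ X := by
      calc (y ^ 4) ^ k * (A : ℝ) ≤ (y ^ 4) ^ k * (y ^ 8) ^ k :=
            mul_le_mul_of_nonneg_left hA1 (by positivity)
        _ = (y ^ 12) ^ k := by rw [← mul_pow]; congr 1; ring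
        _ ≤ X := hX1
    have h4 : (y ^ 4) ^ k * (A : ℝ) < A * ((X / A : ℕ) + 1) := h3.trans_lt h2
    have h5 : (y ^ 4) ^ k < ((X / A : ℕ) : ℝ) + 1 := by
      rw [mul_comm] at h4
      exact lt_of_mul_lt_mul_left h4 hAr.le
    linarith
  have hmain' : (y ^ 4) ^ k - 1 ≤ (C.size : ℝ) + (n : ℝ) ^ (2 : ℝ) := by
    refine hquot.trans ?_
    have h1 : ((2 ^ ((κ + 1) * (13 * a)) / apx2 κ (13 * a) ^ 2 : ℕ) : ℝ) ≤
        ((C.size + C.fanins.sum : ℕ) : ℝ) := by exact_mod_cast hmain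
    rw [Nat.cast_add] at h1
    linarith
  -- `(y ^ 3) ^ k ≥ n ^ 3`
  have h3k : (n : ℝ) ^ (3 : ℕ) ≤ (y ^ 3) ^ k := by
    have h1 : (y ^ 3) ^ k = (n : ℝ) ^ (α * k * 3) := by
      rw [hy, ← Real.rpow_natCast, ← Real.rpow_natCast, ← Real.rpow_mul hn0.le,
        ← Real.rpow_mul hn0.le]
      congr 1
      push_cast
      ring
    rw [h1, ← Real.rpow_natCast]
    refine Real.rpow_le_rpow_of_exponent_le hn1 ?_
    have h2 : 1 ≤ α * k := by
      rw [div_le_iff₀ hα0] at hk1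
      linarith
    push_cast
    linarith
  have hyk : (n : ℝ) ^ (α * k) = y ^ k := by
    rw [hy, ← Real.rpow_natCast, ← Real.rpow_mul hn0.le]
  have hyk1 : 1 ≤ y ^ k := one_le_pow₀ hy1
  have h4k : (y ^ 4) ^ k = y ^ k * (y ^ 3) ^ k := by
    rw [← mul_pow]; congr 1; ring
  have hn2' : (n : ℝ) ^ (2 : ℝ) = (n : ℝ) ^ (2 : ℕ) := by
    rw [← Real.rpow_natCast]; norm_num
  rw [hyk]
  rw [h4k, hn2'] at hmain'
  have h5 : (n : ℝ) ^ (2 : ℕ) + 2 ≤ (n : ℝ) ^ (3 : ℕ) := by nlinarith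
  nlinarith
end Pool.Agent.J6H27.PL
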